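import Mathlib

/-!
# Counting permutations, Hadamard matrices, and the structure of flat vectors
-/

namespace Pool.Agent.H404Z.Disc

open Finset

variable {ι : Type} [Fintype ι] [DecidableEq ι]

lemma perm_step (T W : Finset ι) (t : ι) (ht : t ∉ T) :
    (univ.filter fun π : Equiv.Perm ι => ∀ s ∈ insert t T, π s ∈ W).card * Fintype.card ι ≤
      (univ.filter fun π : Equiv.Perm ι => ∀ s ∈ T, π s ∈ W).card * W.card := by
  set F := univ.filter fun π : Equiv.Perm ι => ∀ s ∈ T, π s ∈ W with hF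
  set c := (univ.filter fun π : Equiv.Perm ι => ∀ s ∈ insert t T, π s ∈ W).card with hc
  have h1 : ∀ t' ∈ Tᶜ, (F.filter fun π => π t' ∈ W).card = c := by
    intro t' ht'
    have ht'' : t' ∉ T := by simpa using ht'
    have hsw : ∀ s ∈ T, Equiv.swap t t' s = s := fun s hs =>
      Equiv.swap_apply_of_ne_of_ne (fun h => ht (h ▸ hs)) (fun h => ht'' (h ▸ hs))
    refine card_bij' (fun π _ => π * Equiv.swap t t') (fun π _ => π * Equiv.swap t t') ?_ ?_ ?_ ?_
    · intro π hπ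
      simp only [hF, mem_filter, mem_univ, true_and, mem_insert, forall_eq_or_imp,
        Equiv.Perm.mul_apply, Equiv.swap_apply_left] at hπ ⊢
      exact ⟨hπ.2, fun s hs => by rw [hsw s hs]; exact hπ.1 s hs⟩
    · intro π hπ
      simp only [hF, mem_filter, mem_univ, true_and, mem_insert, forall_eq_or_imp,
        Equiv.Perm.mul_apply, Equiv.swap_apply_right] at hπ ⊢
      exact ⟨fun s hs => by rw [hsw s hs]; exact hπ.2 s hs, hπ.1⟩
    · intro π _; simp [mul_assoc]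
    · intro π _; simp [mul_assoc]
  have h2 : ∀ π ∈ F, (Tᶜ.filter fun t' => π t' ∈ W).card + T.card = W.card := by
    intro π hπ
    have hπ' : ∀ s ∈ T, π s ∈ W := by simpa [hF] using hπ
    have e1 : (univ.filter fun t' => π t' ∈ W).card = W.card := by
      refine card_bij' (fun s _ => π s) (fun s _ => π.symm s) ?_ ?_ ?_ ?_ <;> simp
    rw [← e1, ← card_union_of_disjoint (by
      rw [disjoint_left]; intro a ha hb; simp at ha; exact ha.1 hb)]
    congr 1
    ext a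
    by_cases ha : a ∈ T
    · simp [ha, hπ' a ha]
    · simp [ha]
  have h3 : ∑ t' ∈ Tᶜ, (F.filter fun π => π t' ∈ W).card =
      ∑ π ∈ F, (Tᶜ.filter fun t' => π t' ∈ W).card := by
    simp only [card_filter]
    exact sum_comm
  rw [sum_congr rfl h1, sum_const, smul_eq_mul] at h3
  have h4 : ∑ π ∈ F, ((Tᶜ.filter fun t' => π t' ∈ W).card + T.card) = F.card * W.card := by
    rw [sum_congr rfl h2, sum_const, smul_eq_mul]
  rw [sum_add_distrib, ← h3, sum_const, smul_eq_mul] at h4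
  have h5 : c ≤ F.card := by
    refine card_le_card fun π hπ => ?_
    simp only [hF, mem_filter, mem_univ, true_and, mem_insert, forall_eq_or_imp] at hπ ⊢
    exact hπ.2
  have h6 := card_add_card_compl T
  rw [← h6, ← h4]
  nlinarith

lemma perm_count [Nonempty ι] (T W : Finset ι) :
    ((univ.filter fun π : Equiv.Perm ι => ∀ s ∈ T, π s ∈ W).card : ℝ) ≤
      Fintype.card (Equiv.Perm ι) * ((W.card : ℝ) / Fintype.card ι) ^ T.card := by
  have hN : (0 : ℝ) < Fintype.card ι := by exact_mod_cast Fintype.card_pos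
  induction T using Finset.induction_on with
  | empty => simp
  | insert t T ht ih =>
    have h1 : ((univ.filter fun π : Equiv.Perm ι => ∀ s ∈ insert t T, π s ∈ W).card : ℝ) *
        Fintype.card ι ≤
        (univ.filter fun π : Equiv.Perm ι => ∀ s ∈ T, π s ∈ W).card * W.card := by
      exact_mod_cast perm_step T W t ht
    rw [card_insert_of_notMem ht, pow_succ, ← mul_assoc, ← mul_div_assoc, le_div_iff₀ hN]
    refine h1.trans ?_
    gcongr

lemma perm_weight [Nonempty ι] (S1 S2 : Finset ι) :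
    ∑ π : Equiv.Perm ι, (1 / 2 : ℝ) ^ (S1.filter fun t => π t ∈ S2).card ≤
      Fintype.card (Equiv.Perm ι) *
        ((1 + (S2ᶜ.card : ℝ) / Fintype.card ι) / 2) ^ S1.card := by
  set w : ℝ := (S2ᶜ.card : ℝ) / Fintype.card ι with hw
  have h1 : ∀ π : Equiv.Perm ι, (1 / 2 : ℝ) ^ (S1.filter fun t => π t ∈ S2).card =
      ∑ T ∈ S1.powerset, (if ∀ s ∈ T, π s ∈ S2ᶜ then 1 else 0) * (1 / 2 : ℝ) ^ S1.card := by
    intro π
    have e1 : (1 / 2 : ℝ) ^ (S1.filter fun t => π t ∈ S2).card =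
        ∏ t ∈ S1, ((if π t ∈ S2ᶜ then 1 else 0) + 1) * (1 / 2 : ℝ) := by
      rw [← prod_const, prod_filter]
      refine prod_congr rfl fun t _ => ?_
      by_cases h : π t ∈ S2 <;> simp [h] <;> norm_num
    rw [e1, prod_mul_distrib, prod_const, prod_add_one, sum_mul]
    refine sum_congr rfl fun T _ => ?_
    rw [prod_boole]
    congr 1
    split_ifs <;> rfl
  simp_rw [h1]
  rw [sum_comm]
  have h2 : ∀ T ∈ S1.powerset, ∑ π : Equiv.Perm ι,
      (if ∀ s ∈ T, π s ∈ S2ᶜ then 1 else 0) * (1 / 2 : ℝ) ^ S1.card ≤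
      Fintype.card (Equiv.Perm ι) * (1 / 2 : ℝ) ^ S1.card * ∏ _s ∈ T, w := by
    intro T _
    rw [← sum_mul, sum_boole, prod_const, mul_right_comm]
    gcongr
    exact perm_count T S2ᶜ
  refine (sum_le_sum h2).trans ?_
  rw [← mul_sum, ← prod_add_one, prod_const, mul_assoc, ← mul_pow]
  apply le_of_eq
  congr 2
  ring

lemma perm_flat [Nonempty ι] (S1 S2 : Finset ι)
    (h1 : (0.48 : ℝ) * Fintype.card ι ≤ S1.card) (h2 : (0.48 : ℝ) * Fintype.card ι ≤ S2.card) :
    ((univ.filter fun π : Equiv.Perm ι =>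
      ((S1.filter fun t => π t ∈ S2).card : ℝ) ≤ 0.0025 * Fintype.card ι).card : ℝ) ≤
      Fintype.card (Equiv.Perm ι) * Real.exp (-(0.1 * Fintype.card ι)) := by
  have hN : (0 : ℝ) < Fintype.card ι := by exact_mod_cast Fintype.card_pos
  set N : ℝ := (Fintype.card ι : ℝ) with hNdef
  have hw : (1 + (S2ᶜ.card : ℝ) / N) / 2 ≤ Real.exp (-0.24) := by
    have e : (S2.card : ℝ) + S2ᶜ.card = N := by
      rw [hNdef]; exact_mod_cast card_add_card_compl S2
    have : (S2ᶜ.card : ℝ) / N ≤ 0.52 := by rw [div_le_iff₀ hN]; linarith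
    have := Real.add_one_le_exp (-0.24)
    linarith
  have h3 := perm_weight S1 S2
  have h4 : ((1 + (S2ᶜ.card : ℝ) / N) / 2) ^ S1.card ≤ Real.exp (-(0.1152 * N)) := by
    calc _ ≤ Real.exp (-0.24) ^ S1.card := by gcongr
      _ = Real.exp (S1.card * (-0.24)) := (Real.exp_nat_mul _ _).symm
      _ ≤ _ := Real.exp_le_exp.2 (by linarith)
  have h5 : ((univ.filter fun π : Equiv.Perm ι =>
      ((S1.filter fun t => π t ∈ S2).card : ℝ) ≤ 0.0025 * N).card : ℝ) * Real.exp (-(0.0025 * N)) ≤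
      ∑ π : Equiv.Perm ι, (1 / 2 : ℝ) ^ (S1.filter fun t => π t ∈ S2).card := by
    rw [← sum_boole, sum_mul]
    refine sum_le_sum fun π _ => ?_
    split_ifs with h
    · rw [one_mul]
      have e1 : Real.exp (-1) ≤ 1 / 2 := by
        rw [Real.exp_neg, one_div]
        exact inv_anti₀ (by norm_num) (by have := Real.add_one_le_exp 1; linarith)
      calc Real.exp (-(0.0025 * N)) ≤ Real.exp ((S1.filter fun t => π t ∈ S2).card * (-1)) :=
            Real.exp_le_exp.2 (by linarith)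
        _ = Real.exp (-1) ^ (S1.filter fun t => π t ∈ S2).card := Real.exp_nat_mul _ _
        _ ≤ _ := by gcongr
    · rw [zero_mul]; positivity
  have h6 : (Fintype.card (Equiv.Perm ι) : ℝ) * Real.exp (-(0.1152 * N)) ≤
      Fintype.card (Equiv.Perm ι) * Real.exp (-(0.1 * N)) * Real.exp (-(0.0025 * N)) := by
    rw [mul_assoc, ← Real.exp_add]
    gcongr
    linarith
  have h7 : (Fintype.card (Equiv.Perm ι) : ℝ) * ((1 + (S2ᶜ.card : ℝ) / N) / 2) ^ S1.card ≤
      Fintype.card (Equiv.Perm ι) * Real.exp (-(0.1152 * N)) := by gcongr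
  exact le_of_mul_le_mul_right (h5.trans (h3.trans (h7.trans h6))) (Real.exp_pos _)

omit [DecidableEq ι] in
lemma flat_big (P e : ι → ℝ) (W : ℝ) (hW : 0 < W) (hN : (Fintype.card ι : ℝ) = W ^ 2 / 2)
    (hP0 : ∀ t, 0 ≤ P t) (hPe : ∀ t, P t ^ 2 ≤ 1.0001 * W ^ 2 + 40000 * e t ^ 2)
    (hP : ∑ t, P t ^ 2 = W ^ 4 / 4) (he : ∑ t, e t ^ 2 ≤ W ^ 4 / 2000000000) :
    (0.48 : ℝ) * Fintype.card ι ≤ (univ.filter fun t => W / 8 ≤ P t).card := by
  have h1 : ∀ t, P t ^ 2 ≤ W ^ 2 / 64 + 1.0001 * W ^ 2 * (if W / 8 ≤ P t then 1 else 0) +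
      40000 * e t ^ 2 := by
    intro t
    have := hPe t
    have := hP0 t
    split_ifs with h
    · nlinarith
    · nlinarith [sq_nonneg (e t)]
  have h2 := sum_le_sum fun t (_ : t ∈ univ) => h1 t
  rw [sum_add_distrib, sum_add_distrib, ← mul_sum, ← mul_sum, sum_boole, sum_const, card_univ,
    nsmul_eq_mul, hP, hN] at h2
  rw [hN]
  have hW2 : 0 < W ^ 2 := by positivity
  by_contra hc
  push Not at hc
  nlinarith

omit [DecidableEq ι] in
lemma flat_inter (P Q e : ι → ℝ) (W : ℝ) (hW : 0 < W) (hN : (Fintype.card ι : ℝ) = W ^ 2 / 2)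
    (hP0 : ∀ t, 0 ≤ P t) (hQ0 : ∀ t, 0 ≤ Q t)
    (hPe : ∀ t, (P t + Q t) ^ 2 ≤ 1.00003 * W ^ 2 + 40000 * e t ^ 2)
    (hP : ∑ t, P t ^ 2 = W ^ 4 / 4) (hQ : ∑ t, Q t ^ 2 = W ^ 4 / 4)
    (he : ∑ t, e t ^ 2 ≤ W ^ 4 / 2000000000) :
    ((univ.filter fun t => W / 8 ≤ P t ∧ W / 8 ≤ Q t).card : ℝ) ≤ 0.0025 * Fintype.card ι := by
  have h1 : ∀ t, P t ^ 2 + Q t ^ 2 + W ^ 2 / 32 * (if W / 8 ≤ P t ∧ W / 8 ≤ Q t then 1 else 0) ≤
      1.00003 * W ^ 2 + 40000 * e t ^ 2 := by
    intro t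
    have := hPe t
    have := mul_nonneg (hP0 t) (hQ0 t)
    split_ifs with h
    · have := mul_le_mul h.1 h.2 (by positivity) (hP0 t)
      nlinarith
    · nlinarith
  have h2 := sum_le_sum fun t (_ : t ∈ univ) => h1 t
  simp only [sum_add_distrib, ← mul_sum, sum_boole,
    sum_const, card_univ, nsmul_eq_mul, hP, hQ, hN] at h2
  rw [hN]
  have hW2 : 0 < W ^ 2 := by positivity
  by_contra hc
  push Not at hc
  nlinarith

end Pool.Agent.H404Z.Disc
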