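import Pool.Agent.H404Z.Disc.Tail
import Pool.Agent.H404Z.Disc.Perm

/-!
# The supporting line bound, Hadamard matrices and the bound for one sign vector
-/

namespace Pool.Agent.H404Z.Disc

open Finset

lemma line (p A D W κ : ℝ) (hD : 1000 ≤ D) (hW : W = 65536 * D) (hA : 0 ≤ A)
    (hκ1 : 1 / (4 * D) ≤ κ) (hκ2 : κ ≤ 1 / D) (h1 : p ≤ 1)
    (h2 : p ≤ Real.exp (κ * (1 - (A - (W + D / 65536)))) / 2)
    (h3 : 0 ≤ A - (W + D / 65536) →
      p ≤ Real.exp (-((A - (W + D / 65536)) ^ 2 / (2 * D ^ 2)))) :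
    p ≤ Real.exp (1 / 100 - κ * (A ^ 2 - W ^ 2) / (2 * W)) / 2 := by
  have hD0 : 0 < D := by linarith
  obtain ⟨y, rfl⟩ : ∃ y, A = W + y * D := ⟨(A - W) / D, by field_simp; ring⟩
  obtain ⟨c, rfl⟩ : ∃ c, κ = c / D := ⟨κ * D, by field_simp⟩
  have hc1 : 1 / 4 ≤ c := by
    rw [div_le_div_iff₀ (by positivity) hD0] at hκ1
    nlinarith
  have hc2 : c ≤ 1 := by rwa [div_le_div_iff_of_pos_right hD0] at hκ2
  have hy : -65536 ≤ y := by
    by_contra hc
    push Not at hc
    nlinarith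
  have e1 : c / D * ((W + y * D) ^ 2 - W ^ 2) / (2 * W) = c * (y + y ^ 2 / 131072) := by
    rw [hW]; field_simp; ring
  have e2 : c / D * (1 - (W + y * D - (W + D / 65536))) = c * (1 / D - y + 1 / 65536) := by
    field_simp; ring
  have e3 : (W + y * D - (W + D / 65536)) ^ 2 / (2 * D ^ 2) = (y - 1 / 65536) ^ 2 / 2 := by
    field_simp; ring
  rw [e1]
  rw [e2] at h2
  rw [e3] at h3
  have hD1 : 1 / D ≤ 1 / 1000 := by gcongr
  have hD1' : 0 ≤ 1 / D := by positivity
  rcases lt_or_ge y (-10) with hy1 | hy1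
  · refine h1.trans ?_
    have h4 : 5 ≤ -(y + y ^ 2 / 131072) := by nlinarith
    have h5 := Real.add_one_le_exp (1 / 100 - c * (y + y ^ 2 / 131072))
    nlinarith
  rcases le_or_gt y 10 with hy2 | hy2
  · refine h2.trans ?_
    gcongr
    have h4 : y ^ 2 ≤ 100 := by nlinarith
    have h5 : c * (1 / D + 1 / 65536 + y ^ 2 / 131072) ≤ 1 * (1 / 100) := by
      gcongr
      linarith
    linarith
  · refine (h3 (by nlinarith)).trans ?_
    have e4 : Real.exp (-1) ≤ 1 / 2 := by
      rw [Real.exp_neg, one_div]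
      exact inv_anti₀ (by norm_num) (by have := Real.add_one_le_exp 1; linarith)
    have h5 : c * (y + y ^ 2 / 131072) ≤ 1 * (y + y ^ 2 / 131072) := by
      gcongr
    calc Real.exp (-((y - 1 / 65536) ^ 2 / 2))
        ≤ Real.exp (1 / 100 - c * (y + y ^ 2 / 131072) + -1) :=
          Real.exp_le_exp.2 (by nlinarith)
      _ = Real.exp (1 / 100 - c * (y + y ^ 2 / 131072)) * Real.exp (-1) := Real.exp_add _ _
      _ ≤ Real.exp (1 / 100 - c * (y + y ^ 2 / 131072)) * (1 / 2) := by gcongr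
      _ = _ := by ring

lemma hadamard (k : ℕ) : ∃ H : (Fin k → Bool) → (Fin k → Bool) → Bool,
    ∀ u : (Fin k → Bool) → ℝ, ∑ t, (∑ s, sg (H t s) * u s) ^ 2 = 2 ^ k * ∑ s, u s ^ 2 := by
  classical
  let h : (Fin k → Bool) → (Fin k → Bool) → ℝ := fun t s => ∏ i, sg (!(t i && s i))
  have hsq : ∀ t s, h t s ^ 2 = 1 := by
    intro t s
    simp only [h]
    rw [← prod_pow]
    simp [sg_sq]
  have hs : ∀ t s, sg (decide (h t s = 1)) = h t s := by
    intro t s
    rcases mul_self_eq_one_iff.mp ((sq _).symm.trans (hsq t s)) with h1 | h1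
    · rw [h1]; simp [sg]
    · rw [h1, decide_eq_false (by norm_num)]; simp [sg]
  have horth : ∀ s s', ∑ t, h t s * h t s' = if s = s' then 2 ^ k else 0 := by
    intro s s'
    have e1 : ∑ t, h t s * h t s' =
        ∏ i : Fin k, ∑ b : Bool, sg (!(b && s i)) * sg (!(b && s' i)) := by
      rw [Finset.prod_univ_sum, Fintype.piFinset_univ]
      refine sum_congr rfl fun t _ => ?_
      simp only [h]
      rw [prod_mul_distrib]
    rw [e1]
    split_ifs with hss
    · subst hss
      have : ∀ i, ∑ b : Bool, sg (!(b && s i)) * sg (!(b && s i)) = 2 := by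
        intro i
        cases s i <;> simp [sg] <;> norm_num
      simp only [this]
      simp
    · obtain ⟨i, hi⟩ := Function.ne_iff.1 hss
      refine prod_eq_zero (mem_univ i) ?_
      revert hi
      cases s i <;> cases s' i <;> simp [sg]
  refine ⟨fun t s => decide (h t s = 1), fun u => ?_⟩
  simp only [hs]
  have e2 : ∀ t, (∑ s, h t s * u s) ^ 2 = ∑ s, ∑ s', u s * u s' * (h t s * h t s') := by
    intro t
    rw [sq, sum_mul_sum]
    refine sum_congr rfl fun s _ => sum_congr rfl fun s' _ => by ring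
  simp only [e2]
  rw [sum_comm, mul_sum]
  refine sum_congr rfl fun s _ => ?_
  rw [sum_comm]
  simp only [← mul_sum, horth]
  simp
  ring

lemma core {ι : Type} [Fintype ι] [DecidableEq ι] [Nonempty ι] (D W C κ : ℝ) (hD : 1000 ≤ D)
    (hW : W = 65536 * D) (hC : C = W + D / 65536) (hκ1 : 1 / (4 * D) ≤ κ) (hκ2 : κ ≤ 1 / D)
    (hN : (Fintype.card ι : ℝ) = W ^ 2 / 2) (p q : ι → ℝ)
    (hp : ∑ t, p t ^ 2 = W ^ 4 / 4) (hq : ∑ t, q t ^ 2 = W ^ 4 / 4)
    (g : Equiv.Perm ι → Bool × ι → ℝ) (g0 : ∀ π z, 0 ≤ g π z) (g1 : ∀ π z, g π z ≤ 1)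
    (g2 : ∀ π z, g π z ≤ Real.exp (κ * (1 - (|p z.2 + sg z.1 * q (π z.2)| - C))) / 2)
    (g3 : ∀ π z, 0 ≤ |p z.2 + sg z.1 * q (π z.2)| - C →
      g π z ≤ Real.exp (-((|p z.2 + sg z.1 * q (π z.2)| - C) ^ 2 / (2 * D ^ 2)))) :
    ∑ π, ∏ z, g π z ≤ Fintype.card (Equiv.Perm ι) *
      (Real.exp (-(0.04 * W ^ 2)) * (1 / 2) ^ Fintype.card (Bool × ι) + Real.exp (-(W ^ 2))) := by
  classical
  have hD0 : 0 < D := by linarith
  have hW0 : 0 < W := by rw [hW]; positivity
  have hcard : (Fintype.card (Bool × ι) : ℝ) = W ^ 2 := by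
    rw [Fintype.card_prod, Fintype.card_bool]; push_cast; rw [hN]; ring
  set a : Equiv.Perm ι → Bool × ι → ℝ := fun π z => |p z.2 + sg z.1 * q (π z.2)| with ha
  have hqπ : ∀ π : Equiv.Perm ι, ∑ t, q (π t) ^ 2 = W ^ 4 / 4 := fun π => by
    rw [← hq]; exact Equiv.sum_comp π (fun t => q t ^ 2)
  have hsum : ∀ π, ∑ z, a π z ^ 2 = W ^ 4 := by
    intro π
    have e1 : ∀ t, ∑ b : Bool, a π (b, t) ^ 2 = 2 * p t ^ 2 + 2 * q (π t) ^ 2 := by
      intro t
      simp only [ha, sq_abs, Fintype.sum_bool, sg]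
      simp
      ring
    rw [Fintype.sum_prod_type_right]
    simp only [e1, sum_add_distrib, ← mul_sum, hp, hqπ]
    ring
  have hA : ∀ π, ∏ z, g π z ≤ Real.exp (0.01 * W ^ 2) * (1 / 2) ^ Fintype.card (Bool × ι) := by
    intro π
    have h1 : ∀ z, g π z ≤ Real.exp (1 / 100 - κ * (a π z ^ 2 - W ^ 2) / (2 * W)) * (1 / 2) := by
      intro z
      have := line (g π z) (a π z) D W κ hD hW (abs_nonneg _) hκ1 hκ2 (g1 π z)
        (hC ▸ g2 π z) (hC ▸ g3 π z)
      linarith
    refine (prod_le_prod (fun z _ => g0 π z) fun z _ => h1 z).trans ?_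
    rw [prod_mul_distrib, prod_const, card_univ, ← Real.exp_sum]
    apply le_of_eq
    congr 2
    rw [sum_sub_distrib, sum_const, ← sum_div, ← mul_sum, sum_sub_distrib, hsum, sum_const,
      card_univ, nsmul_eq_mul, nsmul_eq_mul, hcard]
    ring
  have hB : ∀ π, 2 * D ^ 2 * W ^ 2 < ∑ z, max (a π z - C) 0 ^ 2 →
      ∏ z, g π z ≤ Real.exp (-(W ^ 2)) := by
    intro π hπ
    have h1 : ∀ z, g π z ≤ Real.exp (-(max (a π z - C) 0 ^ 2 / (2 * D ^ 2))) := by
      intro z
      rcases le_total 0 (a π z - C) with h | h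
      · rw [max_eq_left h]; exact g3 π z h
      · rw [max_eq_right h]; simpa using g1 π z
    refine (prod_le_prod (fun z _ => g0 π z) fun z _ => h1 z).trans ?_
    rw [← Real.exp_sum, Real.exp_le_exp, sum_neg_distrib, ← sum_div, neg_le_neg_iff,
      le_div_iff₀ (by positivity)]
    linarith
  set S1 := univ.filter fun t => W / 8 ≤ |p t| with hS1
  set S2 := univ.filter fun t => W / 8 ≤ |q t| with hS2
  have hF : ∀ π, ∑ z, max (a π z - C) 0 ^ 2 ≤ 2 * D ^ 2 * W ^ 2 →
      ((0.48 : ℝ) * Fintype.card ι ≤ S1.card ∧ (0.48 : ℝ) * Fintype.card ι ≤ S2.card) ∧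
        ((S1.filter fun t => π t ∈ S2).card : ℝ) ≤ 0.0025 * Fintype.card ι := by
    intro π hπ
    set e : ι → ℝ := fun t => max (|p t| + |q (π t)| - C) 0 with he
    have he1 : ∀ t, e t ^ 2 ≤ ∑ b : Bool, max (a π (b, t) - C) 0 ^ 2 := by
      intro t
      have h1 : ∃ b : Bool, a π (b, t) = |p t| + |q (π t)| := by
        rcases le_total 0 (p t) with h | h <;> rcases le_total 0 (q (π t)) with h' | h'
        · exact ⟨true, by simp [ha, sg, abs_of_nonneg, h, h', add_nonneg]⟩
        · refine ⟨false, ?_⟩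
          simp only [ha, sg]
          rw [abs_of_nonneg h, abs_of_nonpos h', abs_of_nonneg (by simp; linarith)]
          simp
        · refine ⟨false, ?_⟩
          simp only [ha, sg]
          rw [abs_of_nonpos h, abs_of_nonneg h', abs_of_nonpos (by simp; linarith)]
          simp
          ring
        · refine ⟨true, ?_⟩
          simp only [ha, sg]
          rw [abs_of_nonpos h, abs_of_nonpos h', abs_of_nonpos (by simp; linarith)]
          simp
          ring
      obtain ⟨b, hb⟩ := h1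
      simp only [he]
      rw [← hb]
      exact single_le_sum (f := fun b : Bool => max (a π (b, t) - C) 0 ^ 2)
        (fun _ _ => sq_nonneg _) (mem_univ b)
    have he2 : ∑ t, e t ^ 2 ≤ W ^ 4 / 2000000000 := by
      refine (sum_le_sum fun t _ => he1 t).trans ?_
      rw [Fintype.sum_prod_type_right] at hπ
      refine hπ.trans ?_
      rw [hW]
      have : 0 < D ^ 4 := by positivity
      nlinarith
    have he3 : ∀ t, (|p t| + |q (π t)|) ^ 2 ≤ 1.00003 * W ^ 2 + 40000 * e t ^ 2 := by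
      intro t
      have h1 : |p t| + |q (π t)| ≤ C + e t := by
        have := le_max_left (|p t| + |q (π t)| - C) 0
        simp only [he]; linarith
      have h2 : (|p t| + |q (π t)|) ^ 2 ≤ (C + e t) ^ 2 := by gcongr
      have h3 : C ^ 2 ≤ 1.000001 * W ^ 2 := by
        rw [hC, hW]
        have : 0 < D ^ 2 := by positivity
        nlinarith
      nlinarith [sq_nonneg (C / 39999 - e t), sq_nonneg W]
    have hp' : ∑ t, |p t| ^ 2 = W ^ 4 / 4 := by simp only [sq_abs, hp]
    have hq' : ∑ t, |q (π t)| ^ 2 = W ^ 4 / 4 := by simp only [sq_abs, hqπ]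
    refine ⟨⟨flat_big (fun t => |p t|) e W hW0 hN (fun t => abs_nonneg _) (fun t => ?_) hp' he2,
      ?_⟩, ?_⟩
    · have := he3 t
      nlinarith [abs_nonneg (p t), abs_nonneg (q (π t)), sq_nonneg W]
    · refine (flat_big (fun t => |q (π t)|) e W hW0 hN (fun t => abs_nonneg _) (fun t => ?_)
        hq' he2).trans (le_of_eq ?_)
      · have := he3 t
        nlinarith [abs_nonneg (p t), abs_nonneg (q (π t)), sq_nonneg W]
      · congr 1
        refine card_bij' (fun s _ => π s) (fun s _ => π.symm s) ?_ ?_ ?_ ?_ <;> simp [hS2]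
    · refine le_trans (le_of_eq ?_) (flat_inter (fun t => |p t|) (fun t => |q (π t)|) e W hW0 hN
        (fun t => abs_nonneg _) (fun t => abs_nonneg _) he3 hp' hq' he2)
      congr 2
      ext t
      simp [hS1, hS2]
  set Fl := univ.filter fun π : Equiv.Perm ι =>
    ∑ z, max (a π z - C) 0 ^ 2 ≤ 2 * D ^ 2 * W ^ 2 with hFl
  have hFc : (Fl.card : ℝ) ≤ Fintype.card (Equiv.Perm ι) * Real.exp (-(0.05 * W ^ 2)) := by
    rcases Fl.eq_empty_or_nonempty with h | ⟨π0, h⟩
    · rw [h]; simp only [card_empty, Nat.cast_zero]; positivity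
    · have h0 := (hF π0 (by simpa [hFl] using h)).1
      have h1 := perm_flat S1 S2 h0.1 h0.2
      rw [hN, show (0.1 : ℝ) * (W ^ 2 / 2) = 0.05 * W ^ 2 by ring, ← hN] at h1
      refine le_trans ?_ h1
      gcongr with π
      intro π hπ
      simp only [mem_filter, mem_univ, true_and]
      exact (hF π (by simpa [hFl] using hπ)).2
  have hfin : ∀ π, ∏ z, g π z ≤ (if π ∈ Fl then 1 else 0) *
      (Real.exp (0.01 * W ^ 2) * (1 / 2) ^ Fintype.card (Bool × ι)) + Real.exp (-(W ^ 2)) := by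
    intro π
    split_ifs with h
    · have := hA π
      have := Real.exp_pos (-(W ^ 2))
      linarith
    · rw [zero_mul, zero_add]
      exact hB π (by simpa [hFl] using h)
  refine (sum_le_sum fun π _ => hfin π).trans ?_
  rw [sum_add_distrib, ← sum_mul, sum_boole, sum_const, card_univ, nsmul_eq_mul, mul_add,
    filter_mem_eq_inter, univ_inter]
  gcongr ?_ + _
  refine (mul_le_mul_of_nonneg_right hFc (by positivity)).trans (le_of_eq ?_)
  rw [mul_assoc, ← mul_assoc (Real.exp _), ← Real.exp_add]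
  congr 3
  ring

end Pool.Agent.H404Z.Disc
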