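import Pool.Agent.H404Z.Disc.Line

/-!
# The first moment argument
-/

namespace Pool.Agent.H404Z.Disc

open Finset

open Classical in
lemma cnt_row {d : ℕ} (v : Fin d → Bool) (a C : ℝ) : ∃ v' : Fin d → Bool,
    (univ.filter fun r : Fin d → Bool => |a + ∑ i, sg (r i) * sg (v i)| ≤ C).card ≤
      cnt v' (|a| - C) := by
  rcases le_total 0 a with h | h
  · refine ⟨fun i => !(v i), card_le_card fun r hr => ?_⟩
    simp only [mem_filter, mem_univ, true_and, sg_not, mul_neg, sum_neg_distrib] at hr ⊢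
    rw [abs_of_nonneg h]
    have := (abs_le.1 hr).2
    linarith
  · refine ⟨v, card_le_card fun r hr => ?_⟩
    simp only [mem_filter, mem_univ, true_and] at hr ⊢
    rw [abs_of_nonpos h]
    have := (abs_le.1 hr).1
    linarith

lemma exists_rows {ι : Type} [Fintype ι] [DecidableEq ι] [Nonempty ι] (D k : ℕ)
    (hDk : D ^ 2 = 2 * k + 2) (hD : 1000 ≤ D) (W C : ℝ) (hW : W = 65536 * D)
    (hC : C = W + D / 65536) (hN : (Fintype.card ι : ℝ) = W ^ 2 / 2) (H : ι → ι → Bool)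
    (hH : ∀ u : ι → ℝ, ∑ t, (∑ s, sg (H t s) * u s) ^ 2 = Fintype.card ι * ∑ s, u s ^ 2) :
    ∃ (π : Equiv.Perm ι) (R : Bool × ι → Fin (2 * k + 1) → Bool),
      ∀ (u1 u2 : ι → Bool) (v : Fin (2 * k + 1) → Bool), ∃ z : Bool × ι,
        C < |(∑ s, sg (H z.2 s) * sg (u1 s) + sg z.1 * ∑ s, sg (H (π z.2) s) * sg (u2 s)) +
          ∑ i, sg (R z i) * sg (v i)| := by
  classical
  by_contra hcon
  push Not at hcon
  obtain ⟨κ, hκ1, hκ2, hκ⟩ := tail D k hDk (by omega)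
  have hD' : (1000 : ℝ) ≤ D := by exact_mod_cast hD
  have hDk' : (D : ℝ) ^ 2 = 2 * k + 2 := by exact_mod_cast hDk
  set n0 := Fintype.card (Bool × ι) with hn0
  have hcard : (n0 : ℝ) = W ^ 2 := by
    rw [hn0, Fintype.card_prod, Fintype.card_bool]; push_cast; rw [hN]; ring
  set G : ((ι → Bool) × (ι → Bool) × (Fin (2 * k + 1) → Bool)) → Equiv.Perm ι → Bool × ι →
      Finset (Fin (2 * k + 1) → Bool) := fun x π z => univ.filter fun r =>
    |(∑ s, sg (H z.2 s) * sg (x.1 s) + sg z.1 * ∑ s, sg (H (π z.2) s) * sg (x.2.1 s)) +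
          ∑ i, sg (r i) * sg (x.2.2 i)| ≤ C with hG
  have h2d : (0 : ℝ) < 2 ^ (2 * k + 1) := by positivity
  set β : ℝ := Real.exp (-(0.04 * W ^ 2)) * (1 / 2) ^ n0 + Real.exp (-(W ^ 2)) with hβ
  have hx : ∀ x, ∑ π, ∏ z, ((G x π z).card : ℝ) ≤
      Fintype.card (Equiv.Perm ι) * β * (2 ^ (2 * k + 1)) ^ n0 := by
    intro x
    have hu : ∀ u : ι → Bool, ∑ t, (∑ s, sg (H t s) * sg (u s)) ^ 2 = W ^ 4 / 4 := by
      intro u
      rw [hH]
      simp only [sg_sq, sum_const, card_univ, nsmul_eq_mul, hN]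
      ring
    have hrow : ∀ π z, ∃ v' : Fin (2 * k + 1) → Bool, ((G x π z).card : ℝ) ≤
        cnt v' (|∑ s, sg (H z.2 s) * sg (x.1 s) +
          sg z.1 * ∑ s, sg (H (π z.2) s) * sg (x.2.1 s)| - C) := by
      intro π z
      obtain ⟨v', hv'⟩ := cnt_row x.2.2 (∑ s, sg (H z.2 s) * sg (x.1 s) +
          sg z.1 * ∑ s, sg (H (π z.2) s) * sg (x.2.1 s)) C
      refine ⟨v', ?_⟩
      exact_mod_cast (by convert hv')
    have h1 := core (D : ℝ) W C κ hD' hW hC hκ1 hκ2 hN (fun t => ∑ s, sg (H t s) * sg (x.1 s))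
      (fun t => ∑ s, sg (H t s) * sg (x.2.1 s)) (hu _) (hu _)
      (fun π z => ((G x π z).card : ℝ) / 2 ^ (2 * k + 1)) (fun π z => by positivity)
      (fun π z => by
        obtain ⟨v', hv'⟩ := hrow π z
        rw [div_le_one h2d]
        exact hv'.trans (cnt_le _ _))
      (fun π z => by
        obtain ⟨v', hv'⟩ := hrow π z
        rw [div_le_iff₀' h2d]
        exact hv'.trans (hκ _ _))
      (fun π z hz => by
        obtain ⟨v', hv'⟩ := hrow π z
        rw [div_le_iff₀' h2d]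
        exact hv'.trans (cnt_hoeff _ _ _ hz (by positivity) (by push_cast; linarith)))
    simp only [prod_div_distrib, prod_const, card_univ, ← sum_div] at h1
    rwa [div_le_iff₀ (by positivity)] at h1
  have hcover : ∀ π : Equiv.Perm ι, ((2 : ℝ) ^ (2 * k + 1)) ^ n0 ≤
      ∑ x, ∏ z, ((G x π z).card : ℝ) := by
    intro π
    have h1 : (univ : Finset (Bool × ι → Fin (2 * k + 1) → Bool)) ⊆
        univ.biUnion fun x => Fintype.piFinset (G x π) := by
      intro R _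
      obtain ⟨u1, u2, v, h⟩ := hcon π R
      refine mem_biUnion.2 ⟨(u1, u2, v), mem_univ _, Fintype.mem_piFinset.2 fun z => ?_⟩
      simp only [hG, mem_filter, mem_univ, true_and]
      exact h z
    have h2 := (card_le_card h1).trans card_biUnion_le
    simp only [card_univ, Fintype.card_fun, Fintype.card_bool, Fintype.card_fin,
      Fintype.card_piFinset] at h2
    exact_mod_cast h2
  have h3 := sum_le_sum fun π (_ : π ∈ univ) => hcover π
  rw [sum_comm, sum_const, card_univ, nsmul_eq_mul] at h3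
  have h4 := h3.trans (sum_le_sum fun x _ => hx x)
  rw [sum_const, card_univ, nsmul_eq_mul] at h4
  have h5 : (Fintype.card ((ι → Bool) × (ι → Bool) × (Fin (2 * k + 1) → Bool)) : ℝ) =
      2 ^ n0 * 2 ^ (2 * k + 1) := by
    simp only [hn0, Fintype.card_prod, Fintype.card_fun, Fintype.card_bool, Fintype.card_fin]
    push_cast
    ring
  have hP : (0 : ℝ) < Fintype.card (Equiv.Perm ι) * (2 ^ (2 * k + 1)) ^ n0 := by
    have : 0 < Fintype.card (Equiv.Perm ι) := Fintype.card_pos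
    positivity
  have h6 : 1 ≤ 2 ^ n0 * 2 ^ (2 * k + 1) * β := by
    rw [h5] at h4
    refine le_of_mul_le_mul_left (le_of_eq_of_le (mul_one _) (h4.trans (le_of_eq ?_))) hP
    ring
  have e2 : (2 : ℝ) ≤ Real.exp 0.7 := by
    have := Real.log_two_lt_d9
    rw [← Real.log_le_iff_le_exp (by norm_num)]
    linarith
  have e3 : ∀ m : ℕ, (2 : ℝ) ^ m ≤ Real.exp (0.7 * m) := fun m => by
    rw [mul_comm, Real.exp_nat_mul]; gcongr
  have e4 : ∀ y : ℝ, 2 ≤ y → Real.exp (-y) < 1 / 2 := fun y hy => by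
    rw [Real.exp_neg, one_div]
    exact inv_strictAnti₀ (by norm_num) (by have := Real.add_one_le_exp y; linarith)
  have hW2 : W ^ 2 = 4294967296 * (D : ℝ) ^ 2 := by rw [hW]; ring
  have hD2 : (1000000 : ℝ) ≤ (D : ℝ) ^ 2 := by nlinarith
  have h7 : 2 ^ n0 * 2 ^ (2 * k + 1) * (Real.exp (-(0.04 * W ^ 2)) * (1 / 2) ^ n0) < 1 / 2 := by
    have e5 : (2 : ℝ) ^ n0 * (1 / 2) ^ n0 = 1 := by rw [← mul_pow]; norm_num
    calc _ = (2 ^ n0 * (1 / 2) ^ n0) * (2 ^ (2 * k + 1) * Real.exp (-(0.04 * W ^ 2))) := by ring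
      _ ≤ 1 * (Real.exp (0.7 * (2 * k + 1 : ℕ)) * Real.exp (-(0.04 * W ^ 2))) := by
          rw [e5]; gcongr; exact e3 _
      _ = Real.exp (-(0.04 * W ^ 2 - 0.7 * (2 * k + 1 : ℕ))) := by
          rw [one_mul, ← Real.exp_add]; congr 1; ring
      _ < _ := e4 _ (by push_cast; linarith)
  have h8 : 2 ^ n0 * 2 ^ (2 * k + 1) * Real.exp (-(W ^ 2)) < 1 / 2 := by
    calc _ ≤ Real.exp (0.7 * n0) * Real.exp (0.7 * (2 * k + 1 : ℕ)) * Real.exp (-(W ^ 2)) := by
          gcongr <;> exact e3 _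
      _ = Real.exp (-(W ^ 2 - 0.7 * n0 - 0.7 * (2 * k + 1 : ℕ))) := by
          rw [← Real.exp_add, ← Real.exp_add]; congr 1; ring
      _ < _ := e4 _ (by rw [hcard]; push_cast; linarith)
  rw [hβ, mul_add] at h6
  linarith

lemma hadamard' (j : ℕ) : ∃ (ι : Type) (_ : Fintype ι) (_ : DecidableEq ι) (_ : Nonempty ι)
    (H : ι → ι → Bool), (Fintype.card ι : ℝ) = 2 ^ j ∧
    ∀ u : ι → ℝ, ∑ t, (∑ s, sg (H t s) * u s) ^ 2 = Fintype.card ι * ∑ s, u s ^ 2 := by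
  obtain ⟨H, hH⟩ := hadamard j
  have hc : (Fintype.card (Fin j → Bool) : ℝ) = 2 ^ j := by simp
  exact ⟨Fin j → Bool, inferInstance, inferInstance, inferInstance, H, hc, by rw [hc]; exact hH⟩

lemma exists_matrix {ι : Type} [Fintype ι] [DecidableEq ι] [Nonempty ι] (D k : ℕ)
    (hDk : D ^ 2 = 2 * k + 2) (hD1 : 1000 ≤ D)
    (hN : (Fintype.card ι : ℝ) = (65536 * (D : ℝ)) ^ 2 / 2) (H : ι → ι → Bool)
    (hH : ∀ u : ι → ℝ, ∑ t, (∑ s, sg (H t s) * u s) ^ 2 = Fintype.card ι * ∑ s, u s ^ 2) :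
    ∃ n : ℕ, D ≤ n ∧ ∃ A : Matrix (Fin n) (Fin n) ℤ, (∀ i j, A i j = 1 ∨ A i j = -1) ∧
      ∀ x : Fin n → ℤ, (∀ j, x j = 1 ∨ x j = -1) → ∃ i : Fin n,
        (1 + 1 / 17179869184) * Real.sqrt (n : ℝ) ≤ |(((Matrix.mulVec A x) i : ℤ) : ℝ)| := by
  obtain ⟨π, R, hR⟩ := exists_rows (ι := ι) D k hDk hD1 _ _ rfl rfl hN H hH
  let e := Fintype.equivFin ((Bool × ι) ⊕ Fin (2 * k + 1))
  let B : (Bool × ι) ⊕ Fin (2 * k + 1) → (Bool × ι) ⊕ Fin (2 * k + 1) → Bool := fun i j =>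
    match i, j with
    | Sum.inl z, Sum.inl (false, s) => H z.2 s
    | Sum.inl z, Sum.inl (true, s) => if z.1 then H (π z.2) s else !(H (π z.2) s)
    | Sum.inl z, Sum.inr i => R z i
    | Sum.inr _, _ => true
  have hn : (Fintype.card ((Bool × ι) ⊕ Fin (2 * k + 1)) : ℝ) =
      (65536 * (D : ℝ)) ^ 2 + (2 * k + 1) := by
    rw [Fintype.card_sum, Fintype.card_prod, Fintype.card_bool, Fintype.card_fin]
    push_cast
    rw [hN]; ring
  have hD' : (1000 : ℝ) ≤ D := by exact_mod_cast hD1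
  have hDk' : (D : ℝ) ^ 2 = 2 * k + 2 := by exact_mod_cast hDk
  refine ⟨_, ?_, fun i j => if B (e.symm i) (e.symm j) then 1 else -1, ?_, fun x hx => ?_⟩
  · have h2 : (D : ℝ) ≤ Fintype.card ((Bool × ι) ⊕ Fin (2 * k + 1)) := by
      rw [hn]
      have : (0 : ℝ) ≤ k := Nat.cast_nonneg _
      nlinarith
    exact_mod_cast h2
  · intro i j
    by_cases h : B (e.symm i) (e.symm j) <;> simp [h]
  · let y : (Bool × ι) ⊕ Fin (2 * k + 1) → Bool := fun j => decide (x (e j) = 1)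
    have hy : ∀ j, (x (e j) : ℝ) = sg (y j) := by
      intro j
      rcases hx (e j) with h | h <;> simp [y, h, sg]
    obtain ⟨z, hz⟩ := hR (fun s => y (Sum.inl (false, s))) (fun s => y (Sum.inl (true, s)))
      (fun i => y (Sum.inr i))
    refine ⟨e (Sum.inl z), le_trans ?_ (le_trans hz.le (le_of_eq ?_))⟩
    · rw [hn, ← le_div_iff₀' (by norm_num), Real.sqrt_le_left (by positivity), div_pow,
        le_div_iff₀ (by norm_num)]
      have : (0 : ℝ) < (D : ℝ) ^ 2 := by positivity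
      nlinarith
    · congr 1
      have h1 : ∀ b : Bool, (((if b then 1 else -1 : ℤ)) : ℝ) = sg b := by
        intro b; cases b <;> simp [sg]
      simp only [Matrix.mulVec, dotProduct]
      rw [← Equiv.sum_comp e]
      simp only [Int.cast_sum, Int.cast_mul, h1]
      simp only [Equiv.symm_apply_apply, hy, Fintype.sum_sum_type, Fintype.sum_prod_type,
        Fintype.sum_bool, B]
      congr 1
      rw [add_comm, Finset.mul_sum]
      congr 1
      refine Finset.sum_congr rfl fun s _ => ?_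
      cases z.1 <;> cases H (π z.2) s <;> simp [sg]

lemma final (N : ℕ) : ∃ n : ℕ, N ≤ n ∧
    ∃ A : Matrix (Fin n) (Fin n) ℤ, (∀ i j, A i j = 1 ∨ A i j = -1) ∧
      ∀ x : Fin n → ℤ, (∀ j, x j = 1 ∨ x j = -1) → ∃ i : Fin n,
        (1 + 1 / 17179869184) * Real.sqrt (n : ℝ) ≤ |(((Matrix.mulVec A x) i : ℤ) : ℝ)| := by
  obtain ⟨m, hm, hm'⟩ : ∃ m : ℕ, N ≤ m ∧ 10 ≤ m := ⟨N + 10, by omega, by omega⟩
  obtain ⟨k, hk⟩ : ∃ k : ℕ, (2 ^ m) ^ 2 = 2 * k + 2 := by
    refine ⟨2 ^ (2 * m - 1) - 1, ?_⟩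
    have h1 : 1 ≤ 2 ^ (2 * m - 1) := Nat.one_le_two_pow
    have h2 : (2 ^ m) ^ 2 = 2 ^ (2 * m - 1) * 2 := by
      rw [← pow_mul, ← pow_succ]; congr 1; omega
    omega
  have hD1 : 1000 ≤ 2 ^ m := le_trans (by norm_num) (Nat.pow_le_pow_right (by norm_num) hm')
  have hDN : N ≤ 2 ^ m := hm.trans Nat.lt_two_pow_self.le
  obtain ⟨ι, i1, i2, i3, H, hc, hH⟩ := hadamard' (2 * m + 31)
  obtain ⟨n, hn, h⟩ := exists_matrix (ι := ι) (2 ^ m) k hk hD1
    (by rw [hc]; push_cast; ring) H hH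
  exact ⟨n, hDN.trans hn, h⟩

end Pool.Agent.H404Z.Disc
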