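import Mathlib

/-!
# Tails of sums of random signs
-/

namespace Pool.Agent.H404Z.Disc

open Finset

/-- the sign of a boolean -/
def sg (b : Bool) : ℝ := if b then 1 else -1

lemma sg_sq (b : Bool) : sg b ^ 2 = 1 := by cases b <;> simp [sg]

lemma sg_not (b : Bool) : sg (!b) = - sg b := by cases b <;> simp [sg]

open Classical in
/-- number of sign vectors with large correlation -/
noncomputable def cnt {d : ℕ} (v : Fin d → Bool) (s : ℝ) : ℕ :=
  (univ.filter fun r : Fin d → Bool => s ≤ ∑ i, sg (r i) * sg (v i)).card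

lemma sum_signs {d : ℕ} (v : Fin d → Bool) (f : ℝ → ℝ) :
    ∑ r : Fin d → Bool, f (∑ i, sg (r i) * sg (v i)) =
      ∑ j ∈ range (d + 1), (d.choose j : ℝ) * f (2 * j - d) := by
  classical
  have h := Finset.sum_powerset_apply_card (fun j : ℕ => f (2 * j - d)) (x := (univ : Finset (Fin d)))
  simp only [card_univ, Fintype.card_fin, nsmul_eq_mul] at h
  rw [← h]
  refine Finset.sum_bij' (fun r _ => univ.filter fun i => r i = v i)
    (fun S _ => fun i => if i ∈ S then v i else !v i) (by simp) (by simp) ?_ ?_ ?_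
  · intro r _
    ext i
    by_cases hi : r i = v i
    · simp [hi]
    · simp only [mem_filter, mem_univ, true_and, hi, if_false]
      cases h1 : r i <;> cases h2 : v i <;> simp_all
  · intro S _
    ext i
    by_cases hi : i ∈ S <;> simp [hi]
  · intro r _
    congr 1
    have e : ∀ i, sg (r i) * sg (v i) = 2 * (if r i = v i then 1 else 0) - 1 := by
      intro i
      cases r i <;> cases v i <;> simp [sg] <;> norm_num
    simp_rw [e]
    rw [sum_sub_distrib, ← mul_sum, sum_boole]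
    simp

lemma cnt_eq {d : ℕ} (v : Fin d → Bool) (s : ℝ) :
    (cnt v s : ℝ) = ∑ j ∈ range (d + 1), (d.choose j : ℝ) * (if s ≤ 2 * j - d then 1 else 0) := by
  classical
  rw [← sum_signs v (fun y => if s ≤ y then 1 else 0), cnt, sum_boole]

lemma cnt_le {d : ℕ} (v : Fin d → Bool) (s : ℝ) : (cnt v s : ℝ) ≤ 2 ^ d := by
  have : cnt v s ≤ Fintype.card (Fin d → Bool) := card_le_univ _
  simp only [Fintype.card_fun, Fintype.card_bool, Fintype.card_fin] at this
  exact_mod_cast this

lemma cnt_hoeff {d : ℕ} (v : Fin d → Bool) (s E : ℝ) (hs : 0 ≤ s) (hE : 0 < E) (hd : (d : ℝ) ≤ E) :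
    (cnt v s : ℝ) ≤ 2 ^ d * Real.exp (-(s ^ 2 / (2 * E))) := by
  classical
  set l : ℝ := s / E with hl
  have hl0 : 0 ≤ l := by positivity
  have h1 : (cnt v s : ℝ) ≤ ∑ r : Fin d → Bool, Real.exp (l * (∑ i, sg (r i) * sg (v i) - s)) := by
    rw [cnt, ← sum_boole]
    refine sum_le_sum fun r _ => ?_
    split_ifs with h
    · exact Real.one_le_exp (mul_nonneg hl0 (by linarith))
    · exact (Real.exp_pos _).le
  have h2 : ∑ r : Fin d → Bool, Real.exp (l * (∑ i, sg (r i) * sg (v i) - s)) =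
      (∏ i : Fin d, ∑ b : Bool, Real.exp (l * (sg b * sg (v i)))) * Real.exp (-(l * s)) := by
    rw [Finset.prod_univ_sum, Fintype.piFinset_univ, sum_mul]
    refine sum_congr rfl fun r _ => ?_
    rw [← Real.exp_sum, ← Real.exp_add, ← mul_sum]
    congr 1; ring
  have h3 : ∀ i, ∑ b : Bool, Real.exp (l * (sg b * sg (v i))) ≤ 2 * Real.exp (l ^ 2 / 2) := by
    intro i
    have := Real.cosh_le_exp_half_sq l
    rw [Real.cosh_eq] at this
    cases v i <;> simp [sg] <;> linarith
  have h4 : (∏ i : Fin d, ∑ b : Bool, Real.exp (l * (sg b * sg (v i)))) ≤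
      (2 * Real.exp (l ^ 2 / 2)) ^ d := by
    calc _ ≤ ∏ _i : Fin d, 2 * Real.exp (l ^ 2 / 2) :=
          prod_le_prod (fun i _ => sum_nonneg fun b _ => (Real.exp_pos _).le) fun i _ => h3 i
      _ = _ := by simp
  refine h1.trans ?_
  rw [h2]
  refine (mul_le_mul_of_nonneg_right h4 (Real.exp_pos _).le).trans ?_
  rw [mul_pow, ← Real.exp_nat_mul, mul_assoc, ← Real.exp_add]
  refine mul_le_mul_of_nonneg_left (Real.exp_le_exp.2 ?_) (by positivity)
  have h5 : (d : ℝ) * (l ^ 2 / 2) ≤ E * (l ^ 2 / 2) := by gcongr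
  have h6 : E * (l ^ 2 / 2) - l * s = -(s ^ 2 / (2 * E)) := by rw [hl]; field_simp; ring
  linarith

/-- tail sums of binomial coefficients -/
def TT (d j : ℕ) : ℕ := ∑ i ∈ range (d + 1), d.choose (j + i)

lemma TT_succ (d j : ℕ) : TT d j = d.choose j + TT d (j + 1) := by
  unfold TT
  rw [sum_range_succ', sum_range_succ (fun i => d.choose (j + 1 + i)),
    Nat.choose_eq_zero_of_lt (show d < j + 1 + d by omega)]
  simp only [add_zero]
  rw [add_comm]
  congr 1
  refine sum_congr rfl fun i _ => ?_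
  congr 1; ring

lemma TT_eq (d j : ℕ) : ∑ i ∈ range (d + 1), (if j ≤ i then d.choose i else 0) = TT d j := by
  induction j with
  | zero => simp [TT]
  | succ j ih =>
    have h := TT_succ d j
    have h2 : ∑ i ∈ range (d + 1), (if j ≤ i then d.choose i else 0) =
        d.choose j + ∑ i ∈ range (d + 1), (if j + 1 ≤ i then d.choose i else 0) := by
      have h3 : d.choose j = ∑ i ∈ range (d + 1), (if i = j then d.choose i else 0) := by
        rw [sum_ite_eq']
        split_ifs with h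
        · rfl
        · exact Nat.choose_eq_zero_of_lt (by simpa using h)
      rw [h3, ← sum_add_distrib]
      refine sum_congr rfl fun i _ => ?_
      split_ifs <;> omega
    omega

lemma TT_half (k : ℕ) : TT (2 * k + 1) (k + 1) = 4 ^ k := by
  have h : ∀ j, ∑ i ∈ range j, (2 * k + 1).choose i + TT (2 * k + 1) j = TT (2 * k + 1) 0 := by
    intro j
    induction j with
    | zero => simp
    | succ j ih => rw [sum_range_succ, ← ih, TT_succ _ j]; ring
  have h0 : TT (2 * k + 1) 0 = 2 ^ (2 * k + 1) := by simp [TT, Nat.sum_range_choose]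
  have h1 := h (k + 1)
  rw [Nat.sum_range_choose_halfway, h0, pow_succ, pow_mul] at h1
  norm_num at h1
  omega

lemma choose_logconc (d a b r : ℕ) (hab : a ≤ b) :
    d.choose a * d.choose (b + r) ≤ d.choose (a + r) * d.choose b := by
  induction r with
  | zero => simp
  | succ r ih =>
    have e1 := Nat.choose_succ_right_eq d (b + r)
    have e2 := Nat.choose_succ_right_eq d (a + r)
    have hpos : 0 < (b + r + 1) * (a + r + 1) := by positivity
    refine Nat.le_of_mul_le_mul_right ?_ hpos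
    have i1 : d - (b + r) ≤ d - (a + r) := by omega
    calc d.choose a * d.choose (b + (r + 1)) * ((b + r + 1) * (a + r + 1))
        = d.choose a * (d.choose (b + r + 1) * (b + r + 1)) * (a + r + 1) := by
          rw [← add_assoc]; ring
      _ = (d.choose a * d.choose (b + r)) * ((d - (b + r)) * (a + r + 1)) := by rw [e1]; ring
      _ ≤ (d.choose (a + r) * d.choose b) * ((d - (a + r)) * (b + r + 1)) := by
          gcongr
      _ = (d.choose (a + r) * (d - (a + r))) * d.choose b * (b + r + 1) := by ring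
      _ = _ := by rw [← e2, ← add_assoc]; ring

lemma TT_up (k j : ℕ) (hj : k ≤ j) :
    (2 * k + 1).choose k * TT (2 * k + 1) (j + 1) ≤ (2 * k + 1).choose j * 4 ^ k := by
  rw [← TT_half k]
  unfold TT
  rw [mul_sum, mul_sum]
  refine sum_le_sum fun i _ => ?_
  have := choose_logconc (2 * k + 1) k (k + 1 + i) (j - k) (by omega)
  have e1 : k + 1 + i + (j - k) = j + 1 + i := by omega
  have e2 : k + (j - k) = j := by omega
  rwa [e1, e2] at this

lemma TT_anti (d : ℕ) {i j : ℕ} (h : i ≤ j) : TT d j ≤ TT d i := by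
  induction j, h using Nat.le_induction with
  | base => exact le_rfl
  | succ j _ ih => have := TT_succ d j; omega

lemma TT_down (k j : ℕ) (hj : j ≤ k) :
    (2 * k + 1).choose j * 4 ^ k ≤ (2 * k + 1).choose k * TT (2 * k + 1) (j + 1) := by
  rw [← TT_half k]
  refine Nat.mul_le_mul ?_ (TT_anti _ (by omega))
  have := Nat.choose_le_middle j (2 * k + 1)
  have e : (2 * k + 1) / 2 = k := by omega
  rwa [e] at this

lemma TT_geom (k j : ℕ) (ρ : ℝ) (hρ : ρ = 1 + ((2 * k + 1).choose k : ℝ) / 4 ^ k) :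
    (TT (2 * k + 1) j : ℝ) ≤ 4 ^ k * ρ ^ ((k + 1 : ℤ) - j) := by
  have h4 : (0 : ℝ) < 4 ^ k := by positivity
  have hρ0 : 0 < ρ := by rw [hρ]; positivity
  have base : (TT (2 * k + 1) (k + 1) : ℝ) ≤ 4 ^ k * ρ ^ ((k + 1 : ℤ) - (k + 1 : ℕ)) := by
    rw [TT_half]; simp
  rcases le_total (k + 1) j with h | h
  · induction j, h using Nat.le_induction with
    | base => exact base
    | succ j hj ih =>
      have h1 : ((2 * k + 1).choose k : ℝ) * TT (2 * k + 1) (j + 1) ≤
          ((2 * k + 1).choose j : ℝ) * 4 ^ k := by exact_mod_cast TT_up k j (by omega)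
      have h2 : (TT (2 * k + 1) j : ℝ) = (2 * k + 1).choose j + TT (2 * k + 1) (j + 1) := by
        exact_mod_cast TT_succ _ j
      have h3 : ρ * TT (2 * k + 1) (j + 1) ≤ TT (2 * k + 1) j := by
        rw [h2, hρ, add_mul, one_mul, div_mul_eq_mul_div, add_comm]
        gcongr
        rwa [div_le_iff₀ h4]
      have e : (k + 1 : ℤ) - j = 1 + ((k + 1 : ℤ) - (j + 1 : ℕ)) := by push_cast; ring
      rw [e, zpow_add₀ hρ0.ne', zpow_one] at ih
      have : ρ * TT (2 * k + 1) (j + 1) ≤ ρ * (4 ^ k * ρ ^ ((k + 1 : ℤ) - (j + 1 : ℕ))) := by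
        linarith
      exact le_of_mul_le_mul_left this hρ0
  · induction h using Nat.decreasingInduction with
    | self => exact base
    | of_succ j hj ih =>
      have h1 : ((2 * k + 1).choose j : ℝ) * 4 ^ k ≤
          ((2 * k + 1).choose k : ℝ) * TT (2 * k + 1) (j + 1) := by
        exact_mod_cast TT_down k j (by omega)
      have h2 : (TT (2 * k + 1) j : ℝ) = (2 * k + 1).choose j + TT (2 * k + 1) (j + 1) := by
        exact_mod_cast TT_succ _ j
      have h3 : (TT (2 * k + 1) j : ℝ) ≤ ρ * TT (2 * k + 1) (j + 1) := by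
        rw [h2, hρ, add_mul, one_mul, div_mul_eq_mul_div, add_comm]
        gcongr
        rwa [le_div_iff₀ h4]
      have e : (k + 1 : ℤ) - j = 1 + ((k + 1 : ℤ) - (j + 1 : ℕ)) := by push_cast; ring
      rw [e, zpow_add₀ hρ0.ne', zpow_one]
      have := mul_le_mul_of_nonneg_left ih hρ0.le
      linarith

lemma cb_upper (n : ℕ) : n.centralBinom ^ 2 * (2 * n + 1) ≤ 16 ^ n := by
  induction n with
  | zero => simp
  | succ n ih =>
    have e := Nat.succ_mul_centralBinom_succ n
    refine Nat.le_of_mul_le_mul_right ?_ (show 0 < (n + 1) ^ 2 by positivity)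
    calc (n + 1).centralBinom ^ 2 * (2 * (n + 1) + 1) * (n + 1) ^ 2
        = ((n + 1) * (n + 1).centralBinom) ^ 2 * (2 * n + 3) := by ring
      _ = (n.centralBinom ^ 2 * (2 * n + 1)) * (4 * ((2 * n + 1) * (2 * n + 3))) := by rw [e]; ring
      _ ≤ 16 ^ n * (16 * (n + 1) ^ 2) := Nat.mul_le_mul ih (by nlinarith)
      _ = _ := by ring

lemma cb_lower (n : ℕ) : 16 ^ (n + 1) ≤ (n + 1).centralBinom ^ 2 * (4 * (n + 1)) := by
  induction n with
  | zero => decide
  | succ n ih =>
    have e := Nat.succ_mul_centralBinom_succ (n + 1)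
    refine Nat.le_of_mul_le_mul_right ?_ (show 0 < (n + 1) * (n + 2) by positivity)
    calc 16 ^ (n + 1 + 1) * ((n + 1) * (n + 2)) = 16 ^ (n + 1) * (16 * ((n + 1) * (n + 2))) := by ring
      _ ≤ ((n + 1).centralBinom ^ 2 * (4 * (n + 1))) * (4 * (2 * n + 3) ^ 2) :=
          Nat.mul_le_mul ih (by nlinarith)
      _ = (2 * (2 * (n + 1) + 1) * (n + 1).centralBinom) ^ 2 * (4 * (n + 1)) := by ring
      _ = _ := by rw [← e]; ring

theorem tail (D k : ℕ) (hD : D ^ 2 = 2 * k + 2) (hD2 : 2 ≤ D) :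
    ∃ κ : ℝ, 1 / (4 * D) ≤ κ ∧ κ ≤ 1 / D ∧ ∀ (v : Fin (2 * k + 1) → Bool) (s : ℝ),
      (cnt v s : ℝ) ≤ 2 ^ (2 * k + 1) * (Real.exp (κ * (1 - s)) / 2) := by
  set x : ℝ := ((2 * k + 1).choose k : ℝ) / 4 ^ k with hx
  have h4 : (0 : ℝ) < 4 ^ k := by positivity
  have hD' : (2 : ℝ) ≤ D := by exact_mod_cast hD2
  have hDk : (D : ℝ) ^ 2 = 2 * k + 2 := by exact_mod_cast hD
  have hcb : (k + 1).centralBinom = 2 * (2 * k + 1).choose k := by
    rw [Nat.centralBinom_eq_two_mul_choose, show 2 * (k + 1) = (2 * k + 1) + 1 by ring,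
      Nat.choose_succ_succ', Nat.choose_symm_half]
    ring
  have x0 : 0 ≤ x := by positivity
  have e16 : (16 : ℝ) ^ (k + 1) = 16 * (4 ^ k) ^ 2 := by
    rw [← pow_mul, mul_comm k 2, pow_mul, pow_succ]; norm_num; ring
  have hM : ((2 * k + 1).choose k : ℝ) = x * 4 ^ k := by rw [hx]; field_simp
  have xu : x ≤ 2 / D := by
    have h1 := cb_upper (k + 1)
    rw [hcb] at h1
    have h2 : (2 * ((2 * k + 1).choose k : ℝ)) ^ 2 * (2 * (k + 1) + 1) ≤ 16 ^ (k + 1) := by
      exact_mod_cast h1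
    rw [e16, hM] at h2
    have h3 : (x * D) ^ 2 ≤ 2 ^ 2 := by
      have h5 : (0 : ℝ) < (4 ^ k) ^ 2 := by positivity
      have h6 : (x ^ 2 * (2 * (k + 1) + 1)) * (4 ^ k) ^ 2 ≤ 4 * (4 ^ k) ^ 2 := by nlinarith
      have h7 := le_of_mul_le_mul_right h6 h5
      nlinarith [sq_nonneg x]
    rw [le_div_iff₀ (by linarith)]
    exact (pow_le_pow_iff_left₀ (by positivity) (by norm_num) two_ne_zero).1 h3
  have xl : 1 / D ≤ x := by
    have h1 := cb_lower k
    rw [hcb] at h1
    have h2 : (16 : ℝ) ^ (k + 1) ≤ (2 * ((2 * k + 1).choose k : ℝ)) ^ 2 * (4 * (k + 1)) := by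
      exact_mod_cast h1
    rw [e16, hM] at h2
    have h3 : (1 : ℝ) ^ 2 ≤ (x * D) ^ 2 := by
      have h5 : (0 : ℝ) < (4 ^ k) ^ 2 := by positivity
      have h6 : 1 * ((4 : ℝ) ^ k) ^ 2 ≤ (x ^ 2 * (k + 1)) * (4 ^ k) ^ 2 := by nlinarith
      have h7 := le_of_mul_le_mul_right h6 h5
      nlinarith [sq_nonneg x]
    rw [div_le_iff₀ (by linarith)]
    exact (pow_le_pow_iff_left₀ (by norm_num) (by positivity) two_ne_zero).1 h3
  have x1 : x ≤ 1 := xu.trans (by rw [div_le_one (by linarith)]; exact hD')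
  have lu : Real.log (1 + x) ≤ x := by
    have := Real.log_le_sub_one_of_pos (x := 1 + x) (by linarith); linarith
  have ll : x / 2 ≤ Real.log (1 + x) := by
    have h1 := Real.one_sub_inv_le_log_of_pos (x := 1 + x) (by linarith)
    refine le_trans ?_ h1
    have : (1 + x)⁻¹ ≤ 1 - x / 2 := by
      rw [inv_le_iff_one_le_mul₀ (by linarith)]; nlinarith
    linarith
  refine ⟨Real.log (1 + x) / 2, ?_, ?_, fun v s => ?_⟩
  · have : 1 / (4 * (D : ℝ)) = (1 / D) / 4 := by field_simp
    linarith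
  · have : 2 / (D : ℝ) = 2 * (1 / D) := by ring
    linarith
  set j0 : ℕ := ⌈(s + (2 * k + 1)) / 2⌉₊ with hj0
  have h1 : (cnt v s : ℝ) ≤ TT (2 * k + 1) j0 := by
    rw [cnt_eq, ← TT_eq]
    push_cast
    refine sum_le_sum fun j _ => ?_
    by_cases h : s ≤ 2 * (j : ℝ) - (2 * k + 1)
    · have : j0 ≤ j := Nat.ceil_le.2 (by linarith)
      rw [if_pos h, if_pos this, mul_one]
    · rw [if_neg h, mul_zero]; positivity
  refine h1.trans ((TT_geom k j0 (1 + x) rfl).trans ?_)
  have e2 : (2 : ℝ) ^ (2 * k + 1) = 4 ^ k * 2 := by rw [pow_succ, pow_mul]; norm_num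
  rw [e2, mul_assoc, mul_div_cancel₀ _ (by norm_num : (2 : ℝ) ≠ 0)]
  refine mul_le_mul_of_nonneg_left ?_ h4.le
  rw [← Real.rpow_intCast, Real.rpow_def_of_pos (by linarith), Real.exp_le_exp]
  have h2 : (s + (2 * k + 1)) / 2 ≤ j0 := Nat.le_ceil _
  have h3 : 0 ≤ Real.log (1 + x) := Real.log_nonneg (by linarith)
  push_cast
  nlinarith

end Pool.Agent.H404Z.Disc
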